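import Pool.Agent.H94.CB.M95

/-!
# OL Norm: the norm of a form under a generically finite rational map

`exists_norm_form`: let `X'` and `X` be the varieties of the prime ideals `P'` and `P`, of the same dimension, and let forms `γ i` define a dominant
rational map from `X'` to `X`.  For each form `R'` which does not vanish on `X'` there is a form `R` which does not vanish on `X`, with
`R (γ y) = 0` for all points `y` of `X'` with `R' y = 0`.
-/

set_option autoImplicit false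

open MvPolynomial

noncomputable section

namespace Pool.Agent.H19OL

attribute [-instance] ProperSMul.toContinuousSMul

open Pool.Agent.H17GT (coordFun functionField)
open Pool.Agent.H17LG.Variety (FunField ratio)
open Pool.Agent.H62.FC (Homog)
open Pool.Agent.H17R (gen gen_eq_zero_iff ratio_self adjoin_ratio coordFun_ne_zero_iff)
open Pool.Agent.H7.Bir (aeval_comp aeval_div funIso exists_quot vals)

/-- An extension of fields with the same finite transcendence degree is algebraic. -/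
theorem alg_of_trdeg {K L : Type} [Field K] [Field L] [Algebra ℂ K] [Algebra ℂ L] [Algebra K L] [IsScalarTower ℂ K L] {k : ℕ}
    {z : Fin k → K} (hz : IsTranscendenceBasis ℂ z) {z' : Fin k → L} (hz' : IsTranscendenceBasis ℂ z') :
    Algebra.IsAlgebraic K L := by
  have h1 := trdeg_add_eq ℂ K (A := L)
  rw [← hz.cardinalMk_eq_trdeg, ← hz'.cardinalMk_eq_trdeg] at h1
  rw [← trdeg_eq_zero_iff]
  have h2 : Cardinal.mk (Fin k) < Cardinal.aleph0 := Cardinal.mk_lt_aleph0
  have h3 : Cardinal.mk (Fin k) + Algebra.trdeg K L = Cardinal.mk (Fin k) + 0 := by rw [h1, add_zero]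
  exact Cardinal.eq_of_add_eq_add_left h3 h2

variable {N M : ℕ}

/-- The field generated by the coordinates. -/
theorem adjoin_self {L : Type} [Field L] [Algebra ℂ L] (x : Fin (N + 1) → L) :
    IntermediateField.adjoin ℂ (Set.range fun i => (⟨x i, IntermediateField.subset_adjoin ℂ _ ⟨i, rfl⟩⟩ :
      IntermediateField.adjoin ℂ (Set.range x))) = ⊤ := by
  apply IntermediateField.lift_injective
  rw [IntermediateField.lift_adjoin, IntermediateField.lift_top]
  congr 1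
  ext y
  constructor
  · rintro ⟨_, ⟨i, rfl⟩, rfl⟩
    exact ⟨i, rfl⟩
  · rintro ⟨i, rfl⟩
    exact ⟨_, ⟨i, rfl⟩, rfl⟩

/-- A dominant rational map gives an embedding of the function fields. -/
theorem exists_hom {P : Ideal (MvPolynomial (Fin (N + 1)) ℂ)} [P.IsPrime] {P' : Ideal (MvPolynomial (Fin (M + 1)) ℂ)}
    [P'.IsPrime] {D : ℕ} {γ : Fin (N + 1) → MvPolynomial (Fin (M + 1)) ℂ} (hγ : ∀ i, (γ i).IsHomogeneous D)
    (hmaps : ∀ n Q, Q.IsHomogeneous n → (aeval γ Q ∈ P' ↔ Q ∈ P)) {i₀ : Fin (N + 1)} (hi₀ : X i₀ ∉ P)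
    {j : Fin (M + 1)} (hj : X j ∉ P') : Nonempty (FunField P →ₐ[ℂ] FunField P') := by
  have hcj : coordFun P' j ≠ 0 := coordFun_ne_zero_iff.2 hj
  set η : Fin (M + 1) → FunField P' := fun i => ratio P' i j with hη
  have hγ₀ : γ i₀ ∉ P' := by
    intro h
    apply hi₀
    rw [← hmaps 1 _ (isHomogeneous_X ℂ i₀), aeval_X]
    exact h
  have hc : aeval η (γ i₀) ≠ 0 := fun h0 => hγ₀ ((gen_eq_zero_iff hcj (hγ i₀)).1 h0)
  set x : Fin (N + 1) → FunField P' := fun i => aeval η (γ i) / aeval η (γ i₀) with hx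
  have hx1 : x i₀ = 1 := div_self hc
  have hcomp : ∀ (n : ℕ) (R : MvPolynomial (Fin (N + 1)) ℂ), R.IsHomogeneous n →
      aeval η (aeval γ R) = aeval η (γ i₀) ^ n * aeval x R := by
    intro n R hR
    rw [aeval_comp, aeval_div hR hc]
  have hker : ∀ (n : ℕ) (G : MvPolynomial (Fin (N + 1)) ℂ), G.IsHomogeneous n → (aeval x G = 0 ↔ G ∈ P) := by
    intro n G hG
    rw [← hmaps n G hG, ← gen_eq_zero_iff hcj (hG.aeval γ hγ)]
    change _ ↔ aeval η (aeval γ G) = 0
    rw [hcomp n G hG, mul_eq_zero]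
    exact ⟨Or.inr, fun h => h.resolve_left (pow_ne_zero _ hc)⟩
  set F : IntermediateField ℂ (FunField P') := IntermediateField.adjoin ℂ (Set.range x) with hF
  set x' : Fin (N + 1) → F := fun i => ⟨x i, IntermediateField.subset_adjoin ℂ _ ⟨i, rfl⟩⟩ with hx'
  have hadj : IntermediateField.adjoin ℂ (Set.range x') = ⊤ := adjoin_self x
  have hval : ∀ G : MvPolynomial (Fin (N + 1)) ℂ, ((aeval x' G : F) : FunField P') = aeval x G := by
    intro G
    have h1 := DFunLike.congr_fun (MvPolynomial.comp_aeval x' F.val) G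
    exact h1
  have hx'1 : x' i₀ = 1 := Subtype.ext hx1
  obtain ⟨e⟩ := funIso (coordFun_ne_zero_iff.2 hi₀) hx'1 hadj fun n G hG => by
    rw [← hker n G hG, ← hval G]
    exact Subtype.ext_iff
  exact ⟨F.val.comp e⟩

/-- The norm of a form, for the points with `y j ≠ 0`. -/
theorem exists_norm_aux {P : Ideal (MvPolynomial (Fin (N + 1)) ℂ)} [P.IsPrime] {P' : Ideal (MvPolynomial (Fin (M + 1)) ℂ)}
    [P'.IsPrime] {k : ℕ} {z : Fin k → FunField P} (hz : IsTranscendenceBasis ℂ z) {z' : Fin k → FunField P'}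
    (hz' : IsTranscendenceBasis ℂ z') {D : ℕ} {γ : Fin (N + 1) → MvPolynomial (Fin (M + 1)) ℂ} (hγ : ∀ i, (γ i).IsHomogeneous D)
    (hmaps : ∀ n Q, Q.IsHomogeneous n → (aeval γ Q ∈ P' ↔ Q ∈ P)) {i₀ : Fin (N + 1)} (hi₀ : X i₀ ∉ P)
    {n : ℕ} {R' : MvPolynomial (Fin (M + 1)) ℂ} (hR' : R'.IsHomogeneous n) (hR'P : R' ∉ P') {j : Fin (M + 1)} (hj : X j ∉ P') :
    ∃ (R : MvPolynomial (Fin (N + 1)) ℂ) (d : ℕ), R.IsHomogeneous d ∧ R ∉ P ∧
      ∀ y : Fin (M + 1) → ℂ, y j ≠ 0 → (∀ Q ∈ P', eval y Q = 0) → eval y R' = 0 → eval (vals γ y) R = 0 := by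
  have hcj : coordFun P' j ≠ 0 := coordFun_ne_zero_iff.2 hj
  set η : Fin (M + 1) → FunField P' := fun i => ratio P' i j with hη
  have hη1 : η j = 1 := ratio_self hcj
  have hγ₀ : γ i₀ ∉ P' := by
    intro h
    apply hi₀
    rw [← hmaps 1 _ (isHomogeneous_X ℂ i₀), aeval_X]
    exact h
  have hc : aeval η (γ i₀) ≠ 0 := fun h0 => hγ₀ ((gen_eq_zero_iff hcj (hγ i₀)).1 h0)
  set x : Fin (N + 1) → FunField P' := fun i => aeval η (γ i) / aeval η (γ i₀) with hx
  have hx1 : x i₀ = 1 := div_self hc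
  have hcomp : ∀ (n : ℕ) (R : MvPolynomial (Fin (N + 1)) ℂ), R.IsHomogeneous n →
      aeval η (aeval γ R) = aeval η (γ i₀) ^ n * aeval x R := by
    intro n R hR
    rw [aeval_comp, aeval_div hR hc]
  have hker : ∀ (n : ℕ) (G : MvPolynomial (Fin (N + 1)) ℂ), G.IsHomogeneous n → (aeval x G = 0 ↔ G ∈ P) := by
    intro n G hG
    rw [← hmaps n G hG, ← gen_eq_zero_iff hcj (hG.aeval γ hγ)]
    change _ ↔ aeval η (aeval γ G) = 0
    rw [hcomp n G hG, mul_eq_zero]
    exact ⟨Or.inr, fun h => h.resolve_left (pow_ne_zero _ hc)⟩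
  -- the subfield generated by the coordinates of the image
  set F : IntermediateField ℂ (FunField P') := IntermediateField.adjoin ℂ (Set.range x) with hF
  set x' : Fin (N + 1) → F := fun i => ⟨x i, IntermediateField.subset_adjoin ℂ _ ⟨i, rfl⟩⟩ with hx'
  have hadj : IntermediateField.adjoin ℂ (Set.range x') = ⊤ := adjoin_self x
  have hval : ∀ G : MvPolynomial (Fin (N + 1)) ℂ, ((aeval x' G : F) : FunField P') = aeval x G := by
    intro G
    have h1 := DFunLike.congr_fun (MvPolynomial.comp_aeval x' F.val) G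
    exact h1
  have hx'1 : x' i₀ = 1 := Subtype.ext hx1
  obtain ⟨e⟩ := funIso (coordFun_ne_zero_iff.2 hi₀) hx'1 hadj fun n G hG => by
    rw [← hker n G hG, ← hval G]
    exact Subtype.ext_iff
  have halg : Algebra.IsAlgebraic F (FunField P') := alg_of_trdeg (e.isTranscendenceBasis hz) hz'
  -- the equation of `R'`
  set s : FunField P' := aeval η R' with hs
  have hs0 : s ≠ 0 := fun h0 => hR'P ((gen_eq_zero_iff hcj hR').1 h0)
  have hint : IsIntegral F s := (halg.isAlgebraic s).isIntegral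
  set p := minpoly F s with hp
  set m := p.natDegree with hm
  obtain ⟨D₁, α, hα, hα0, hα1⟩ := exists_quot hx'1 hadj (fun i : Fin (m + 1) => p.coeff (i : ℕ)) (j' := Fin.last m) (by
    have h1 := minpoly.monic hint
    exact h1)
  have hα0' : aeval x (α (Fin.last m)) ≠ 0 := by
    rw [← hval]
    exact fun h => hα0 (Subtype.ext h)
  have hrel : ∑ i : Fin (m + 1), aeval x (α i) * s ^ (i : ℕ) = 0 := by
    have h1 := minpoly.aeval F s
    rw [Polynomial.aeval_eq_sum_range, ← Fin.sum_univ_eq_sum_range (fun i => p.coeff i • s ^ i)] at h1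
    have h2 : ∀ i : Fin (m + 1), aeval x (α i) * s ^ (i : ℕ) = aeval x (α (Fin.last m)) * (p.coeff (i : ℕ) • s ^ (i : ℕ)) := by
      intro i
      have h3 := congrArg (fun t : F => (t : FunField P')) (hα1 i)
      simp only [MulMemClass.coe_mul, hval] at h3
      rw [← h3, Algebra.smul_def]
      change _ = _ * (((p.coeff (i : ℕ) : F) : FunField P') * _)
      ring
    have h4 : ∑ i : Fin (m + 1), aeval x (α (Fin.last m)) * (p.coeff (i : ℕ) • s ^ (i : ℕ)) =
        aeval x (α (Fin.last m)) * ∑ i : Fin (m + 1), p.coeff (i : ℕ) • s ^ (i : ℕ) := (Finset.mul_sum _ _ _).symm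
    rw [Finset.sum_congr rfl fun i _ => h2 i, h4, h1, mul_zero]
  have hα00 : aeval x (α 0) ≠ 0 := by
    have h3 := congrArg (fun t : F => (t : FunField P')) (hα1 0)
    simp only [MulMemClass.coe_mul, hval] at h3
    rw [← h3]
    refine mul_ne_zero ?_ hα0'
    have h4 : p.coeff 0 ≠ 0 := minpoly.coeff_zero_ne_zero hint hs0
    intro h5
    exact h4 (Subtype.ext h5)
  -- the form
  set G : MvPolynomial (Fin (M + 1)) ℂ := ∑ i : Fin (m + 1), aeval γ (α i) * R' ^ (i : ℕ) * X j ^ (n * (m - i)) with hG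
  have hGhom : G.IsHomogeneous (D * D₁ + n * m) := by
    refine IsHomogeneous.sum _ _ _ fun i _ => ?_
    have h1 := ((((hα i).aeval γ hγ).mul (hR'.pow (i : ℕ))).mul ((isHomogeneous_X ℂ j).pow (n * (m - i))))
    have h2 : D * D₁ + n * (i : ℕ) + 1 * (n * (m - i)) = D * D₁ + n * m := by
      have h3 : (i : ℕ) ≤ m := Nat.lt_succ_iff.1 i.2
      rw [one_mul, add_assoc, ← mul_add, Nat.add_sub_cancel' h3]
    rw [h2] at h1
    exact h1
  have hGP : G ∈ P' := by
    rw [← gen_eq_zero_iff hcj hGhom]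
    change aeval η G = 0
    rw [hG, map_sum]
    have h1 : ∀ i : Fin (m + 1), aeval η (aeval γ (α i) * R' ^ (i : ℕ) * X j ^ (n * (m - i))) =
        aeval η (γ i₀) ^ D₁ * (aeval x (α i) * s ^ (i : ℕ)) := by
      intro i
      rw [map_mul, map_mul, map_pow, map_pow, aeval_X, hη1, one_pow, mul_one, hcomp D₁ _ (hα i)]
      ring
    have h2 : ∑ i : Fin (m + 1), aeval η (γ i₀) ^ D₁ * (aeval x (α i) * s ^ (i : ℕ)) =
        aeval η (γ i₀) ^ D₁ * ∑ i : Fin (m + 1), aeval x (α i) * s ^ (i : ℕ) := (Finset.mul_sum _ _ _).symm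
    rw [Finset.sum_congr rfl fun i _ => h1 i, h2, hrel, mul_zero]
  refine ⟨α 0, D₁, hα 0, fun h => hα00 ((hker D₁ _ (hα 0)).2 h), fun y hyj hy hyR => ?_⟩
  have h1 := hy G hGP
  rw [hG, map_sum, Fin.sum_univ_succ] at h1
  have h2 : ∀ i : Fin m, eval y (aeval γ (α i.succ) * R' ^ ((i.succ : Fin (m + 1)) : ℕ) * X j ^ (n * (m - (i.succ : Fin (m + 1))))) = 0 := by
    intro i
    rw [map_mul, map_mul, map_pow, hyR, Fin.val_succ, zero_pow (Nat.succ_ne_zero _), mul_zero, zero_mul]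
  rw [Finset.sum_eq_zero fun i _ => h2 i, add_zero, map_mul, map_mul, map_pow, map_pow, eval_X, Fin.val_zero, pow_zero,
    mul_one, mul_eq_zero] at h1
  have h3 : eval y (aeval γ (α 0)) = 0 := h1.resolve_right (pow_ne_zero _ hyj)
  have h4 : eval y (aeval γ (α 0)) = eval (vals γ y) (α 0) := aeval_comp (K := ℂ) y γ (α 0)
  rw [← h4]
  exact h3

/-- **The norm of a form.** -/
theorem exists_norm_form {P : Ideal (MvPolynomial (Fin (N + 1)) ℂ)} [P.IsPrime] {P' : Ideal (MvPolynomial (Fin (M + 1)) ℂ)}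
    [P'.IsPrime] {k : ℕ} (hz : ∃ z : Fin (k + 1) → FunField P, IsTranscendenceBasis ℂ z)
    (hz' : ∃ z : Fin (k + 1) → FunField P', IsTranscendenceBasis ℂ z) {D : ℕ}
    {γ : Fin (N + 1) → MvPolynomial (Fin (M + 1)) ℂ} (hγ : ∀ i, (γ i).IsHomogeneous D)
    (hmaps : ∀ n Q, Q.IsHomogeneous n → (aeval γ Q ∈ P' ↔ Q ∈ P))
    {n : ℕ} {R' : MvPolynomial (Fin (M + 1)) ℂ} (hR' : R'.IsHomogeneous n) (hR'P : R' ∉ P') :
    ∃ (R : MvPolynomial (Fin (N + 1)) ℂ) (d : ℕ), R.IsHomogeneous d ∧ R ∉ P ∧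
      ∀ y : Fin (M + 1) → ℂ, y ≠ 0 → (∀ Q ∈ P', eval y Q = 0) → eval y R' = 0 → eval (vals γ y) R = 0 := by
  classical
  obtain ⟨z, hz⟩ := hz
  obtain ⟨z', hz'⟩ := hz'
  obtain ⟨i₀, hi₀⟩ := Pool.Agent.H92.GT.Proj.exists_coordFun_ne_zero P z hz
  have hi₀' : X i₀ ∉ P := coordFun_ne_zero_iff.1 hi₀
  have h1 : ∀ j : Fin (M + 1), ∃ (R : MvPolynomial (Fin (N + 1)) ℂ) (d : ℕ), R.IsHomogeneous d ∧ R ∉ P ∧
      ∀ y : Fin (M + 1) → ℂ, y j ≠ 0 → (∀ Q ∈ P', eval y Q = 0) → eval y R' = 0 → eval (vals γ y) R = 0 := by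
    intro j
    by_cases hj : X j ∈ P'
    · refine ⟨1, 0, isHomogeneous_one _ _, fun h => (Ideal.ne_top_iff_one P).1 (Ideal.IsPrime.ne_top inferInstance) h, fun y hyj hy => ?_⟩
      have h2 := hy _ hj
      rw [eval_X] at h2
      exact absurd h2 hyj
    · exact exists_norm_aux hz hz' hγ hmaps hi₀' hR' hR'P hj
  choose R d hR hRP hRy using h1
  refine ⟨∏ j, R j, ∑ j, d j, IsHomogeneous.prod _ _ _ fun j _ => hR j, ?_, fun y hy hyP hyR => ?_⟩
  · intro h
    obtain ⟨j, -, hj⟩ := (Ideal.IsPrime.prod_mem_iff (p := P)).1 h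
    exact hRP j hj
  · obtain ⟨j, hj⟩ := Function.ne_iff.1 hy
    rw [map_prod]
    exact Finset.prod_eq_zero (Finset.mem_univ j) (hRy j y hj hyP hyR)

end Pool.Agent.H19OL
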